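import Pool.Agent.Helper69K9.RP.Stm
import Pool.Agent.Helper69K9.SN.En

set_option autoImplicit false

/-! # [EG] the energy bound -/

namespace Pool.Agent.Helper69K9.RP

open Pool.Agent.Helper69K9.SN.EnL in
/-- the energy bound, with a better constant -/
theorem eg' (ι : Type) [Fintype ι] [DecidableEq ι] (w : ι → ℂ) (r L : ℝ) (hw : ∀ i, ‖w i‖ ≤ 1)
    (hr0 : 0 ≤ r) (hr1 : r < 1)
    (hprod : Real.exp L ≤ ∏ i, ∏ j ∈ Finset.univ.erase i, ‖1 - w i * (starRingEnd ℂ) (w j)‖)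
    (m : ℕ) : ∑ k ∈ Finset.Icc 1 m, r ^ k * (‖∑ i, w i ^ k‖ ^ 2 / (k : ℝ)) ≤
      Fintype.card ι * Real.log (1 / (1 - r)) +
        (Fintype.card ι : ℝ) ^ 2 * ((1 - r) / (1 + r)) - L := by
  have hconj : ∀ i, ‖(starRingEnd ℂ) (w i)‖ ≤ 1 := fun i => by
    rw [RCLike.norm_conj]; exact hw i
  have hz1 : ∀ i j, ‖w i * (starRingEnd ℂ) (w j)‖ ≤ 1 := fun i j => by
    rw [norm_mul]
    exact mul_le_one₀ (hw i) (norm_nonneg _) (hconj j)
  have hzr : ∀ i j, ‖(r : ℂ) * (w i * (starRingEnd ℂ) (w j))‖ < 1 := fun i j => by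
    rw [norm_mul, Complex.norm_real, Real.norm_eq_abs, abs_of_nonneg hr0]
    calc r * ‖w i * (starRingEnd ℂ) (w j)‖ ≤ r * 1 := mul_le_mul_of_nonneg_left (hz1 i j) hr0
      _ < 1 := by linarith
  -- the off diagonal factors are nonzero
  have hpos : 0 < ∏ i, ∏ j ∈ Finset.univ.erase i, ‖1 - w i * (starRingEnd ℂ) (w j)‖ :=
    lt_of_lt_of_le (Real.exp_pos _) hprod
  have hne : ∀ i, ∀ j ∈ Finset.univ.erase i, ‖1 - w i * (starRingEnd ℂ) (w j)‖ ≠ 0 := by
    intro i j hj h0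
    apply hpos.ne'
    apply Finset.prod_eq_zero (Finset.mem_univ i)
    exact Finset.prod_eq_zero hj h0
  -- the series
  have hser : HasSum (fun n : ℕ => ∑ i, ∑ j,
      (((r : ℂ) * (w i * (starRingEnd ℂ) (w j))) ^ n / n).re)
      (∑ i, ∑ j, -Real.log ‖1 - (r : ℂ) * (w i * (starRingEnd ℂ) (w j))‖) :=
    hasSum_sum fun i _ => hasSum_sum fun j _ => log_series (hzr i j)
  have hterm : ∀ n : ℕ, ∑ i, ∑ j, (((r : ℂ) * (w i * (starRingEnd ℂ) (w j))) ^ n / n).re
      = r ^ n * (‖∑ i, w i ^ n‖ ^ 2 / (n : ℝ)) := by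
    intro n
    have e1 : ∑ i, ∑ j, (((r : ℂ) * (w i * (starRingEnd ℂ) (w j))) ^ n / n)
        = ((r ^ n * (‖∑ i, w i ^ n‖ ^ 2 / (n : ℝ)) : ℝ) : ℂ) := by
      have e2 : (((‖∑ i, w i ^ n‖ ^ 2 : ℝ)) : ℂ)
          = (∑ i, w i ^ n) * (∑ j, ((starRingEnd ℂ) (w j)) ^ n) := by
        rw [Complex.sq_norm, ← Complex.mul_conj, map_sum]
        simp only [map_pow]
      push_cast
      push_cast at e2
      rw [e2, Finset.sum_mul_sum, Finset.sum_div, Finset.mul_sum]
      apply Finset.sum_congr rfl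
      intro i _
      rw [Finset.sum_div, Finset.mul_sum]
      apply Finset.sum_congr rfl
      intro j _
      ring
    have e3 := congrArg Complex.re e1
    rw [Complex.ofReal_re, Complex.re_sum] at e3
    rw [← e3]
    apply Finset.sum_congr rfl
    intro i _
    rw [Complex.re_sum]
  -- the upper bound of the total sum
  have h1r : 0 < 1 - r := by linarith
  have hdiag : ∀ i, -Real.log ‖1 - (r : ℂ) * (w i * (starRingEnd ℂ) (w i))‖
      ≤ Real.log (1 / (1 - r)) := by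
    intro i
    have h1 : 1 - r ≤ ‖1 - (r : ℂ) * (w i * (starRingEnd ℂ) (w i))‖ := by
      have h2 := norm_sub_norm_le (1 : ℂ) ((r : ℂ) * (w i * (starRingEnd ℂ) (w i)))
      rw [norm_one, norm_mul, Complex.norm_real, Real.norm_eq_abs, abs_of_nonneg hr0] at h2
      have h3 : r * ‖w i * (starRingEnd ℂ) (w i)‖ ≤ r * 1 :=
        mul_le_mul_of_nonneg_left (hz1 i i) hr0
      linarith
    have h5 := Real.log_le_log h1r h1
    rw [one_div, Real.log_inv]
    linarith
  set t : ℝ := (1 - r) / (1 + r) with ht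
  have ht0 : 0 ≤ t := by rw [ht]; positivity
  have hshrink : Real.log (2 / (1 + r)) ≤ t := by
    have h1 := Real.log_le_sub_one_of_pos (show (0 : ℝ) < 2 / (1 + r) by positivity)
    have h2 : 2 / (1 + r) - 1 = t := by
      rw [ht]
      have : (1 + r) ≠ 0 := by linarith
      field_simp
      ring
    linarith
  have hoff : ∀ i, ∀ j ∈ Finset.univ.erase i,
      -Real.log ‖1 - (r : ℂ) * (w i * (starRingEnd ℂ) (w j))‖
        ≤ -Real.log ‖1 - w i * (starRingEnd ℂ) (w j)‖ + t := by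
    intro i j hj
    have h1 := shrink (hz1 i j) hr0 hr1.le
    have h0 : 0 < ‖1 - w i * (starRingEnd ℂ) (w j)‖ :=
      lt_of_le_of_ne (norm_nonneg _) (hne i j hj).symm
    have h2 : ‖1 - w i * (starRingEnd ℂ) (w j)‖ / (2 / (1 + r))
        ≤ ‖1 - (r : ℂ) * (w i * (starRingEnd ℂ) (w j))‖ := by
      rw [div_div_eq_mul_div, div_le_iff₀ (by norm_num)]
      linarith
    have h3 := Real.log_le_log (by positivity) h2
    rw [Real.log_div h0.ne' (by positivity)] at h3
    linarith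
  have htot : ∑ i, ∑ j, -Real.log ‖1 - (r : ℂ) * (w i * (starRingEnd ℂ) (w j))‖
      ≤ Fintype.card ι * Real.log (1 / (1 - r)) + (Fintype.card ι : ℝ) ^ 2 * t - L := by
    have h1 : ∀ i, ∑ j, -Real.log ‖1 - (r : ℂ) * (w i * (starRingEnd ℂ) (w j))‖
        ≤ Real.log (1 / (1 - r)) +
          (∑ j ∈ Finset.univ.erase i, -Real.log ‖1 - w i * (starRingEnd ℂ) (w j)‖
          + Fintype.card ι * t) := by
      intro i
      rw [← Finset.add_sum_erase _ _ (Finset.mem_univ i)]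
      refine add_le_add (hdiag i) ?_
      refine le_trans (Finset.sum_le_sum (hoff i)) ?_
      rw [Finset.sum_add_distrib, Finset.sum_const, nsmul_eq_mul]
      have h2 : ((Finset.univ.erase i).card : ℝ) * t ≤ Fintype.card ι * t := by
        apply mul_le_mul_of_nonneg_right _ ht0
        exact_mod_cast Finset.card_le_univ _
      linarith
    refine le_trans (Finset.sum_le_sum fun i _ => h1 i) ?_
    rw [Finset.sum_add_distrib, Finset.sum_add_distrib, Finset.sum_const, Finset.sum_const,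
      Finset.card_univ, nsmul_eq_mul, nsmul_eq_mul]
    have h2 : ∑ i, ∑ j ∈ Finset.univ.erase i, -Real.log ‖1 - w i * (starRingEnd ℂ) (w j)‖
        = -Real.log (∏ i, ∏ j ∈ Finset.univ.erase i, ‖1 - w i * (starRingEnd ℂ) (w j)‖) := by
      rw [Real.log_prod (fun i _ => Finset.prod_ne_zero_iff.2 (hne i)), ← Finset.sum_neg_distrib]
      apply Finset.sum_congr rfl
      intro i _
      rw [Real.log_prod (hne i), ← Finset.sum_neg_distrib]
    rw [h2]
    have h3 : L ≤ Real.log (∏ i, ∏ j ∈ Finset.univ.erase i, ‖1 - w i * (starRingEnd ℂ) (w j)‖) := by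
      have := Real.log_le_log (Real.exp_pos _) hprod
      rwa [Real.log_exp] at this
    nlinarith
  refine le_trans ?_ htot
  have h1 : HasSum (fun n : ℕ => r ^ n * (‖∑ i, w i ^ n‖ ^ 2 / (n : ℝ)))
      (∑ i, ∑ j, -Real.log ‖1 - (r : ℂ) * (w i * (starRingEnd ℂ) (w j))‖) := by
    have e : (fun n : ℕ => r ^ n * (‖∑ i, w i ^ n‖ ^ 2 / (n : ℝ))) = fun n : ℕ => ∑ i, ∑ j,
        (((r : ℂ) * (w i * (starRingEnd ℂ) (w j))) ^ n / n).re := by
      funext n; exact (hterm n).symm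
    rw [e]; exact hser
  exact sum_le_hasSum _ (fun n _ => by positivity) h1

theorem eg : S_EG := by
  intro ι _ _ w r L hw hr0 hr1 hprod m
  refine (eg' ι w r L hw hr0 hr1 hprod m).trans ?_
  have h1 : (1 - r) / (1 + r) ≤ 1 - r := div_le_self (by linarith) (by linarith)
  have h2 := mul_le_mul_of_nonneg_left h1 (sq_nonneg (Fintype.card ι : ℝ))
  linarith

end Pool.Agent.Helper69K9.RP
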