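import Mathlib
import Pool.Agent.Helper69K9.RP.Eg
import Pool.Agent.Helper69K9.SN.Small

/-!
# The general inequality for families of Perron numbers with infinitely many Parry powers
-/

set_option autoImplicit false

open Polynomial

namespace Pool.Agent.Helper69K9.RP

open Pool.Agent.R329.Par Pool.Agent.Helper69K9.SN

/-- the sum of the `k`-th powers of the conjugates, the conjugate `β` being replaced by `1 / β` -/
noncomputable def W (β : ℝ) (k : ℕ) : ℝ :=
  (((minpoly ℤ β).aroots ℂ).map fun z => z ^ k).sum.re - β ^ k + (β⁻¹) ^ k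

/-- the numbers counted -/
def QQ (T : ℝ) (d : ℕ) : Set ℝ :=
  {β : ℝ | IsPerron β ∧ β < T ∧ (minpoly ℤ β).natDegree ≤ d ∧ ¬ (parryPowers β).Finite}

theorem aroots_sum {β : ℝ} {n : ℕ} (a : Fin n → ℂ)
    (h : (minpoly ℤ β).map (Int.castRingHom ℂ) = ∏ i, (X - C (a i))) (k : ℕ) :
    (((minpoly ℤ β).aroots ℂ).map fun z => z ^ k).sum = ∑ i, a i ^ k := by
  have h1 : (minpoly ℤ β).aroots ℂ = Finset.univ.val.map a := by
    rw [Polynomial.aroots_def]
    have h2 : (minpoly ℤ β).map (algebraMap ℤ ℂ) = ∏ i, (X - C (a i)) := h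
    have h3 := Polynomial.roots_multiset_prod_X_sub_C (Multiset.map a Finset.univ.val)
    rw [Multiset.map_map] at h3
    rw [h2, Finset.prod_eq_multiset_prod]
    exact h3
  rw [h1, Multiset.map_map]
  rfl

/-- Cauchy-Schwarz -/
theorem cs (d : ℕ) (r : ℝ) (hr0 : 0 < r) (b S : ℕ → ℝ) :
    (∑ k ∈ Finset.Icc 1 d, b k * S k) ^ 2 ≤
      (∑ k ∈ Finset.Icc 1 d, (k : ℝ) * b k ^ 2 / r ^ k) *
        ∑ k ∈ Finset.Icc 1 d, r ^ k * (S k ^ 2 / (k : ℝ)) := by
  have h := Finset.sum_mul_sq_le_sq_mul_sq (Finset.Icc 1 d)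
    (fun k => b k * Real.sqrt ((k : ℝ) / r ^ k)) (fun k => S k * Real.sqrt (r ^ k / (k : ℝ)))
  have e1 : ∀ k ∈ Finset.Icc 1 d, (b k * Real.sqrt ((k : ℝ) / r ^ k)) *
      (S k * Real.sqrt (r ^ k / (k : ℝ))) = b k * S k := by
    intro k hk
    have hk1 : (0 : ℝ) < k := by exact_mod_cast (Finset.mem_Icc.1 hk).1
    have hrk : 0 < r ^ k := pow_pos hr0 k
    have : Real.sqrt ((k : ℝ) / r ^ k) * Real.sqrt (r ^ k / (k : ℝ)) = 1 := by
      rw [← Real.sqrt_mul (by positivity), div_mul_div_comm, mul_comm (r ^ k) (k : ℝ),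
        div_self (by positivity), Real.sqrt_one]
    calc _ = b k * S k * (Real.sqrt ((k : ℝ) / r ^ k) * Real.sqrt (r ^ k / (k : ℝ))) := by ring
      _ = _ := by rw [this, mul_one]
  have e2 : ∀ k ∈ Finset.Icc 1 d, (b k * Real.sqrt ((k : ℝ) / r ^ k)) ^ 2 =
      (k : ℝ) * b k ^ 2 / r ^ k := by
    intro k _
    have hrk : 0 < r ^ k := pow_pos hr0 k
    rw [mul_pow, Real.sq_sqrt (by positivity)]
    ring
  have e3 : ∀ k ∈ Finset.Icc 1 d, (S k * Real.sqrt (r ^ k / (k : ℝ))) ^ 2 =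
      r ^ k * (S k ^ 2 / (k : ℝ)) := by
    intro k _
    have hrk : 0 < r ^ k := pow_pos hr0 k
    rw [mul_pow, Real.sq_sqrt (by positivity)]
    ring
  rwa [Finset.sum_congr rfl e1, Finset.sum_congr rfl e2, Finset.sum_congr rfl e3] at h

theorem gen (RF : S_RF) (PR : S_PR) (RS : S_RS) {T ε : ℝ} (hT : 1 < T) (hε0 : 0 < ε)
    (hε1 : ε < 1) {d : ℕ} (hd : 1 ≤ d) (F : Finset ℝ) (hF : ∀ β ∈ F, β ∈ QQ T d)
    (b : ℕ → ℝ) (hb : ∑ k ∈ Finset.Icc 1 d, (k : ℝ) * b k ^ 2 ≤ 1 - ε) (lam : ℝ) (hl : 0 ≤ lam)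
    (hlam : ∀ β ∈ F, lam ≤ ∑ k ∈ Finset.Icc 1 d, b k * W β k)
    (P : Finset ℕ) (δ : ℕ → ℕ) (hP : ∀ p ∈ P, p.Prime)
    (hδ : ∀ p ∈ P, ∃ H : (ZMod p)[X], H.natDegree = δ p ∧
      ∀ β ∈ F, H ∣ (minpoly ℤ β).map (Int.castRingHom (ZMod p))) :
    (F.card : ℝ) * (lam ^ 2 + ∑ p ∈ P, δ p * Real.log p -
        (2 * Real.log T + ε / (2 - ε)) * d) ≤
      d * Real.log (d / ε) + ∑ p ∈ P, δ p * Real.log p := by
  classical
  set G : ℝ := ∑ p ∈ P, δ p * Real.log p with hG
  have hd0 : (0 : ℝ) < d := by exact_mod_cast hd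
  have hd1 : (1 : ℝ) ≤ d := by exact_mod_cast hd
  have hG0 : 0 ≤ G := by
    rw [hG]
    refine Finset.sum_nonneg fun p hp => mul_nonneg (by positivity) (Real.log_nonneg ?_)
    exact_mod_cast (hP p hp).one_lt.le
  have hlog0 : 0 ≤ Real.log (d / ε) := by
    apply Real.log_nonneg
    rw [le_div_iff₀ hε0]
    linarith
  have hlT : 0 < Real.log T := Real.log_pos hT
  rcases F.eq_empty_or_nonempty with rfl | hne
  · simp only [Finset.card_empty, Nat.cast_zero, zero_mul]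
    positivity
  have hdat := fun b : F => pa (b : ℝ) (hF b b.2).1 (hF b b.2).2.2.2
  choose a i0 hmap hi0 hdisc hvd using hdat
  set N : ℕ := F.card with hN
  have hN1 : 1 ≤ N := Finset.card_pos.2 hne
  have hN0 : (0 : ℝ) < N := by exact_mod_cast hN1
  set nn : F → ℕ := fun b => (minpoly ℤ (b : ℝ)).natDegree with hnn
  set w : (Σ b : F, Fin (nn b)) → ℂ := fun x =>
    if x.2 = i0 x.1 then ((((x.1 : ℝ))⁻¹ : ℝ) : ℂ) else a x.1 x.2 with hw
  set c : (Σ b : F, Fin (nn b)) → ℝ := fun x =>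
    if x.2 = i0 x.1 then (x.1 : ℝ) else 1 with hc
  have hβ1 : ∀ b : F, 1 < (b : ℝ) := fun b => (hF b b.2).1.1
  have hrf := RF (Σ b : F, Fin (nn b)) (fun x => a x.1 x.2) w c (by
    rintro ⟨y, i⟩
    by_cases h : i = i0 y
    · right
      refine ⟨?_, ?_, ?_⟩
      · simp only [hc, h, if_true]; exact hβ1 y
      · simp only [hc, h, if_true]; exact hi0 y
      · simp only [hc, hw, h, if_true]
    · left
      refine ⟨?_, hdisc y i h, ?_⟩
      · simp only [hc, h, if_false]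
      · simp only [hw, h, if_false])
  have hcprod : ∏ x, c x ≤ T ^ N := by
    rw [Fintype.prod_sigma]
    have h1 : ∀ y : F, ∏ i, c ⟨y, i⟩ = (y : ℝ) := by
      intro y
      simp only [hc]
      rw [Finset.prod_ite_eq' Finset.univ (i0 y) (fun _ => (y : ℝ))]
      simp
    rw [Finset.prod_congr rfl fun y _ => h1 y]
    calc ∏ y : F, (y : ℝ) ≤ ∏ _y : F, T :=
          Finset.prod_le_prod (fun y _ => by linarith [hβ1 y]) fun y _ => (hF y y.2).2.1.le
      _ = T ^ N := by rw [Finset.prod_const, Finset.card_univ, Fintype.card_coe]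
  have hcprod0 : 0 ≤ ∏ x, c x := by
    refine Finset.prod_nonneg fun x _ => ?_
    simp only [hc]
    split_ifs
    · linarith [hβ1 x.1]
    · norm_num
  set n : ℕ := Fintype.card (Σ b : F, Fin (nn b)) with hn
  have hnN : (n : ℝ) ≤ N * d := by
    have : n ≤ N * d := by
      rw [hn, Fintype.card_sigma]
      calc ∑ y : F, Fintype.card (Fin (nn y)) ≤ ∑ _y : F, d :=
            Finset.sum_le_sum fun y _ => by rw [Fintype.card_fin]; exact (hF y y.2).2.2.1
        _ = N * d := by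
            rw [Finset.sum_const, Finset.card_univ, Fintype.card_coe, smul_eq_mul]
    exact_mod_cast this
  have hcardF : Fintype.card F = N := Fintype.card_coe F
  have hexpG : Real.exp G = ∏ p ∈ P, (p : ℝ) ^ δ p := by
    rw [hG, Real.exp_sum]
    refine Finset.prod_congr rfl fun p hp => ?_
    have hp0 : (0 : ℝ) < p := by exact_mod_cast (hP p hp).pos
    rw [mul_comm, Real.exp_mul, Real.exp_log hp0, Real.rpow_natCast]
  have hpr := PR F nn (fun y => a y) G (fun y => hvd y) (by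
    intro y y' hyy
    rw [hexpG]
    refine RS (minpoly ℤ (y : ℝ)) (minpoly ℤ (y' : ℝ)) _ _ (a y) (a y') P δ
      (minpoly.monic (hF y y.2).1.2.1) (minpoly.monic (hF y' y'.2).1.2.1)
      (minpoly.irreducible (hF y y.2).1.2.1) (minpoly.irreducible (hF y' y'.2).1.2.1) ?_
      (hmap y) (hmap y') hP ?_
    · intro heq
      -- the largest zero determines the number
      have h1 : ∃ i, a y' i = ((y : ℝ) : ℂ) := by
        have h2 : ((minpoly ℤ (y' : ℝ)).map (Int.castRingHom ℂ)).eval ((y : ℝ) : ℂ) = 0 := by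
          rw [← heq, hmap y, eval_prod, Finset.prod_eq_zero_iff]
          exact ⟨i0 y, Finset.mem_univ _, by simp [hi0 y]⟩
        rw [hmap y', eval_prod, Finset.prod_eq_zero_iff] at h2
        obtain ⟨i, _, hi⟩ := h2
        refine ⟨i, ?_⟩
        simp only [eval_sub, eval_X, eval_C, sub_eq_zero] at hi
        exact hi.symm
      obtain ⟨i, hi⟩ := h1
      by_cases h3 : i = i0 y'
      · rw [h3, hi0 y'] at hi
        apply hyy
        apply Subtype.ext
        exact_mod_cast hi.symm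
      · have h4 := hdisc y' i h3
        rw [hi, Complex.norm_real, Real.norm_of_nonneg (by linarith [hβ1 y])] at h4
        linarith [hβ1 y]
    · intro p hp
      obtain ⟨H, h1, h2⟩ := hδ p hp
      exact ⟨H, h1, h2 y y.2, h2 y' y'.2⟩)
  rw [hcardF] at hpr
  set Pr : ℝ := ∏ x, ∏ y ∈ Finset.univ.erase x, ‖1 - w x * (starRingEnd ℂ) (w y)‖ with hPr
  have hPr0 : 0 ≤ Pr := Finset.prod_nonneg fun i _ => Finset.prod_nonneg fun j _ => norm_nonneg _
  have hexpL : Real.exp (G * (N * (N - 1)) - 2 * n * N * Real.log T) ≤ Pr := by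
    have h1 : Real.exp (G * (N * (N - 1))) ≤ (T ^ N) ^ (2 * n) * Pr :=
      (hpr.trans hrf).trans (mul_le_mul_of_nonneg_right
        (pow_le_pow_left₀ hcprod0 hcprod _) hPr0)
    have h2 : (T ^ N) ^ (2 * n) = Real.exp (2 * n * N * Real.log T) := by
      rw [← pow_mul, mul_comm (2 * (n : ℝ) * N) (Real.log T), Real.exp_mul,
        Real.exp_log (by linarith), ← Real.rpow_natCast]
      congr 1
      push_cast
      ring
    rw [h2] at h1
    rw [Real.exp_sub, div_le_iff₀ (Real.exp_pos _)]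
    linarith
  set r : ℝ := 1 - ε / d with hr
  have hεd : ε / d < 1 := by
    rw [div_lt_one hd0]; linarith
  have hεd0 : 0 < ε / d := by positivity
  have hr0 : 0 < r := by rw [hr]; linarith
  have hr1 : r < 1 := by rw [hr]; linarith
  have hw1 : ∀ x, ‖w x‖ ≤ 1 := by
    rintro ⟨y, i⟩
    by_cases h : i = i0 y
    · simp only [hw, h, if_true]
      rw [Complex.norm_real, Real.norm_of_nonneg (by have := hβ1 y; positivity)]
      exact inv_le_one_of_one_le₀ (hβ1 y).le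
    · simp only [hw, h, if_false]
      exact hdisc y i h
  have heg := eg' (Σ b : F, Fin (nn b)) w r _ hw1 hr0.le hr1 hexpL d
  rw [← hn] at heg
  -- the sums of powers
  have hS : ∀ k, (∑ x, w x ^ k).re = ∑ y : F, W (y : ℝ) k := by
    intro k
    rw [Fintype.sum_sigma, Complex.re_sum]
    refine Finset.sum_congr rfl fun y _ => ?_
    have h1 : ∑ i, w ⟨y, i⟩ ^ k = ∑ i, a y i ^ k - ((y : ℝ) : ℂ) ^ k + (((y : ℝ)⁻¹ : ℝ) : ℂ) ^ k := by
      rw [← Finset.add_sum_erase _ _ (Finset.mem_univ (i0 y)),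
        ← Finset.add_sum_erase Finset.univ (fun i => a y i ^ k) (Finset.mem_univ (i0 y))]
      have h2 : ∑ i ∈ Finset.univ.erase (i0 y), w ⟨y, i⟩ ^ k =
          ∑ i ∈ Finset.univ.erase (i0 y), a y i ^ k := by
        refine Finset.sum_congr rfl fun i hi => ?_
        simp only [hw, Finset.ne_of_mem_erase hi, if_false]
      have h3 : w ⟨y, i0 y⟩ = (((y : ℝ)⁻¹ : ℝ) : ℂ) := by simp only [hw, if_true]
      rw [h2, h3, hi0 y]
      ring
    rw [h1, W, aroots_sum (a y) (hmap y)]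
    simp only [Complex.add_re, Complex.sub_re]
    norm_cast
  have hlow : ((N : ℝ) * lam) ^ 2 ≤
      ∑ k ∈ Finset.Icc 1 d, r ^ k * (‖∑ x, w x ^ k‖ ^ 2 / (k : ℝ)) := by
    have h1 : (N : ℝ) * lam ≤ ∑ k ∈ Finset.Icc 1 d, b k * (∑ x, w x ^ k).re := by
      have h2 : ∑ k ∈ Finset.Icc 1 d, b k * (∑ x, w x ^ k).re =
          ∑ y : F, ∑ k ∈ Finset.Icc 1 d, b k * W (y : ℝ) k := by
        rw [Finset.sum_comm]
        refine Finset.sum_congr rfl fun k _ => ?_
        rw [hS k, Finset.mul_sum]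
      rw [h2]
      calc (N : ℝ) * lam = ∑ _y : F, lam := by
            rw [Finset.sum_const, Finset.card_univ, hcardF, nsmul_eq_mul]
        _ ≤ _ := Finset.sum_le_sum fun y _ => hlam y y.2
    have h3 := cs d r hr0 b (fun k => (∑ x, w x ^ k).re)
    have h4 : ∑ k ∈ Finset.Icc 1 d, (k : ℝ) * b k ^ 2 / r ^ k ≤ 1 := by
      have h5 : ∀ k ∈ Finset.Icc 1 d, (k : ℝ) * b k ^ 2 / r ^ k ≤
          ((k : ℝ) * b k ^ 2) * (1 - ε)⁻¹ := by
        intro k hk
        have hkd : k ≤ d := (Finset.mem_Icc.1 hk).2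
        have h6 : 1 - ε ≤ r ^ k := by
          have h7 : r ^ d ≤ r ^ k := pow_le_pow_of_le_one hr0.le hr1.le hkd
          have h8 := one_add_mul_le_pow (a := -(ε / d)) (by linarith) d
          have h9 : 1 + (d : ℝ) * (-(ε / d)) = 1 - ε := by field_simp; ring
          rw [h9, ← sub_eq_add_neg, ← hr] at h8
          exact h8.trans h7
        rw [div_eq_mul_inv]
        exact mul_le_mul_of_nonneg_left (inv_anti₀ (by linarith) h6) (by positivity)
      refine (Finset.sum_le_sum h5).trans ?_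
      rw [← Finset.sum_mul]
      calc (∑ k ∈ Finset.Icc 1 d, (k : ℝ) * b k ^ 2) * (1 - ε)⁻¹ ≤ (1 - ε) * (1 - ε)⁻¹ :=
            mul_le_mul_of_nonneg_right hb (by
              have : 0 < 1 - ε := by linarith
              positivity)
        _ = 1 := mul_inv_cancel₀ (by linarith)
    have h5 : ∑ k ∈ Finset.Icc 1 d, r ^ k * ((∑ x, w x ^ k).re ^ 2 / (k : ℝ)) ≤
        ∑ k ∈ Finset.Icc 1 d, r ^ k * (‖∑ x, w x ^ k‖ ^ 2 / (k : ℝ)) := by
      refine Finset.sum_le_sum fun k _ => ?_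
      refine mul_le_mul_of_nonneg_left ?_ (pow_pos hr0 k).le
      refine div_le_div_of_nonneg_right ?_ (by positivity)
      rw [← sq_abs]
      exact pow_le_pow_left₀ (abs_nonneg _) (Complex.abs_re_le_norm _) 2
    have h50 : 0 ≤ ∑ k ∈ Finset.Icc 1 d, r ^ k * ((∑ x, w x ^ k).re ^ 2 / (k : ℝ)) :=
      Finset.sum_nonneg fun k _ => by positivity
    calc ((N : ℝ) * lam) ^ 2 ≤ (∑ k ∈ Finset.Icc 1 d, b k * (∑ x, w x ^ k).re) ^ 2 :=
          pow_le_pow_left₀ (by positivity) h1 2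
      _ ≤ _ := h3
      _ ≤ 1 * ∑ k ∈ Finset.Icc 1 d, r ^ k * ((∑ x, w x ^ k).re ^ 2 / (k : ℝ)) :=
          mul_le_mul_of_nonneg_right h4 h50
      _ ≤ _ := by rw [one_mul]; exact h5
  have h1r : 1 - r = ε / d := by rw [hr]; ring
  set t : ℝ := (1 - r) / (1 + r) with ht
  have ht1 : t ≤ (ε / (2 - ε)) / d := by
    have h1 : 2 - ε ≤ 1 + r := by
      have h2 : ε / d ≤ ε := div_le_self hε0.le hd1
      rw [hr]; linarith
    rw [ht, h1r]
    calc ε / d / (1 + r) ≤ ε / d / (2 - ε) :=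
          div_le_div_of_nonneg_left hεd0.le (by linarith) h1
      _ = ε / (2 - ε) / d := by rw [div_div, div_div, mul_comm]
  have ht0 : 0 ≤ t := by
    rw [ht]
    exact div_nonneg (by linarith) (by linarith)
  rw [h1r, one_div_div] at heg
  have hn0 : (0 : ℝ) ≤ n := by positivity
  have h6 : (n : ℝ) * Real.log (d / ε) ≤ N * d * Real.log (d / ε) :=
    mul_le_mul_of_nonneg_right hnN hlog0
  set e' : ℝ := ε / (2 - ε) with he'
  have h7 : (n : ℝ) ^ 2 * t ≤ N ^ 2 * (e' * d) := by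
    have h8 : (n : ℝ) ^ 2 ≤ (N * d) ^ 2 := pow_le_pow_left₀ hn0 hnN 2
    calc (n : ℝ) ^ 2 * t ≤ (N * d) ^ 2 * (e' / d) := mul_le_mul h8 ht1 ht0 (by positivity)
      _ = N ^ 2 * (e' * d) := by field_simp
  have h8 : 2 * (n : ℝ) * N * Real.log T ≤ 2 * (N * d) * N * Real.log T := by
    have : 0 ≤ 2 * (N : ℝ) * Real.log T := by positivity
    nlinarith
  have key : (N : ℝ) * (N * (lam ^ 2 + G - (2 * Real.log T + e') * d)) ≤
      N * (d * Real.log (d / ε) + G) := by
    nlinarith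
  exact le_of_mul_le_mul_left key hN0

end Pool.Agent.Helper69K9.RP
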