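import Pool.Agent.Helper69K9.RP.Rf

/-! Refinement of `rf` for outer points which are close to each other. -/

set_option autoImplicit false

namespace Pool.Agent.Helper69K9.RP

theorem prod_q (ι : Type) [Fintype ι] [DecidableEq ι] (O : ι → Prop) [DecidablePred O] (η : ℝ) :
    ∏ i, ∏ j ∈ Finset.univ.erase i, (if O i ∧ O j then η else 1) =
      η ^ ((Finset.univ.filter O).card * ((Finset.univ.filter O).card - 1)) := by
  have h1 : ∀ i, ∏ j ∈ Finset.univ.erase i, (if O i ∧ O j then η else 1) =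
      if O i then η ^ ((Finset.univ.filter O).card - 1) else 1 := by
    intro i
    by_cases hi : O i
    · simp only [hi, true_and, if_true]
      rw [Finset.prod_ite, Finset.prod_const_one, mul_one, Finset.prod_const]
      congr 1
      have h2 : (Finset.univ.erase i).filter O = (Finset.univ.filter O).erase i := by
        ext j
        simp only [Finset.mem_filter, Finset.mem_erase, Finset.mem_univ, and_true, true_and]
      rw [h2, Finset.card_erase_of_mem (by simp [hi])]
    · simp [hi]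
  rw [Finset.prod_congr rfl fun i _ => h1 i, Finset.prod_ite, Finset.prod_const_one, mul_one,
    Finset.prod_const, ← pow_mul]
  congr 1
  ring

open RfL in
theorem rf2 (ι : Type) [Fintype ι] [DecidableEq ι] (a w : ι → ℂ) (c : ι → ℝ)
    (h : ∀ i, (c i = 1 ∧ ‖a i‖ ≤ 1 ∧ w i = a i) ∨
      (1 < c i ∧ a i = (c i : ℂ) ∧ w i = (((c i)⁻¹ : ℝ) : ℂ))) (η : ℝ) (hη0 : 0 < η)
    (hη : ∀ i j, i ≠ j → 1 < c i → 1 < c j → |c i - c j| ≤ η * (c i * c j - 1)) :
    ∏ i, ∏ j ∈ Finset.univ.erase i, ‖a i - a j‖ ≤ (∏ i, c i) ^ (2 * Fintype.card ι) *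
      (η ^ ((Finset.univ.filter fun i => 1 < c i).card *
        ((Finset.univ.filter fun i => 1 < c i).card - 1)) *
      ∏ i, ∏ j ∈ Finset.univ.erase i, ‖1 - w i * (starRingEnd ℂ) (w j)‖) := by
  have hc1 : ∀ i, 1 ≤ c i := by
    intro i
    rcases h i with h | h
    · exact h.1.ge
    · exact h.1.le
  have hc0 : ∀ i, 0 < c i := fun i => one_pos.trans_le (hc1 i)
  have hfac : ∀ i, ∀ j ∈ Finset.univ.erase i, ‖a i - a j‖ ≤ (c i * c j) *
      ((if 1 < c i ∧ 1 < c j then η else 1) * ‖1 - w i * (starRingEnd ℂ) (w j)‖) := by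
    intro i j hij
    have hne : i ≠ j := (Finset.ne_of_mem_erase hij).symm
    rcases h i with ⟨hi1, hi2, hi3⟩ | ⟨hi1, hi2, hi3⟩ <;> rcases h j with ⟨hj1, hj2, hj3⟩ | ⟨hj1, hj2, hj3⟩
    · rw [if_neg (by rw [hi1]; simp), one_mul, hi1, hj1, hi3, hj3, one_mul, one_mul]
      exact sub_le_one_sub hi2 hj2
    · rw [if_neg (by rw [hi1]; simp), one_mul, hi1, hi3, hj2, hj3, one_mul, Complex.conj_ofReal,
        norm_sub_rev, one_out (hc0 j), mul_comm (a i)]
    · rw [if_neg (by rw [hj1]; simp), one_mul, hj1, hj3, hi2, hi3, mul_one, conj_one,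
        one_out (hc0 i)]
    · rw [if_pos ⟨hi1, hj1⟩, hi2, hi3, hj2, hj3, Complex.conj_ofReal]
      have e1 : ((c i : ℂ) - (c j : ℂ)) = ((c i - c j : ℝ) : ℂ) := by push_cast; ring
      have e2 : (1 - (((c i)⁻¹ : ℝ) : ℂ) * (((c j)⁻¹ : ℝ) : ℂ)) =
          ((1 - (c i)⁻¹ * (c j)⁻¹ : ℝ) : ℂ) := by
        push_cast; ring
      rw [e1, e2, Complex.norm_real, Complex.norm_real, Real.norm_eq_abs, Real.norm_eq_abs]
      have hi0 := hc0 i
      have hj0 := hc0 j
      have e3 : (c i * c j) * |1 - (c i)⁻¹ * (c j)⁻¹| = |c i * c j - 1| := by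
        rw [← abs_of_pos (mul_pos hi0 hj0), ← abs_mul, abs_of_pos (mul_pos hi0 hj0)]
        congr 1
        field_simp
      have e4 : (c i * c j) * (η * |1 - (c i)⁻¹ * (c j)⁻¹|) = η * |c i * c j - 1| := by
        rw [← e3]; ring
      rw [e4]
      have h1 : 0 ≤ (c i - 1) * (c j - 1) := mul_nonneg (by linarith) (by linarith)
      have h2 : 1 ≤ c i * c j := by nlinarith
      rw [abs_of_nonneg (by linarith : 0 ≤ c i * c j - 1)]
      exact hη i j hne hi1 hj1
  have h1 : ∏ i, ∏ j ∈ Finset.univ.erase i, ‖a i - a j‖ ≤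
      ∏ i, ∏ j ∈ Finset.univ.erase i, ((c i * c j) *
        ((if 1 < c i ∧ 1 < c j then η else 1) * ‖1 - w i * (starRingEnd ℂ) (w j)‖)) := by
    refine Finset.prod_le_prod (fun i _ => Finset.prod_nonneg fun j _ => norm_nonneg _)
      fun i _ => ?_
    refine Finset.prod_le_prod (fun j _ => norm_nonneg _) fun j hj => hfac i j hj
  refine h1.trans ?_
  rw [← prod_q ι (fun i => 1 < c i) η]
  simp_rw [Finset.prod_mul_distrib]
  rw [← Finset.prod_mul_distrib]
  refine mul_le_mul_of_nonneg_right ?_ (mul_nonneg (Finset.prod_nonneg fun i _ =>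
    Finset.prod_nonneg fun j _ => by split_ifs <;> positivity) (Finset.prod_nonneg fun i _ =>
    Finset.prod_nonneg fun j _ => norm_nonneg _))
  calc ∏ i, ((∏ j ∈ Finset.univ.erase i, c i) * ∏ j ∈ Finset.univ.erase i, c j)
      ≤ ∏ i, (c i ^ Fintype.card ι * ∏ j, c j) := by
        refine Finset.prod_le_prod (fun i _ => mul_nonneg
          (Finset.prod_nonneg fun j _ => (hc0 i).le) (Finset.prod_nonneg fun j _ => (hc0 j).le))
          fun i _ => ?_
        apply mul_le_mul _ _ (Finset.prod_nonneg fun j _ => (hc0 j).le) (pow_nonneg (hc0 i).le _)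
        · rw [Finset.prod_const]
          apply pow_le_pow_right₀ (hc1 i)
          exact (Finset.card_le_card (Finset.erase_subset _ _)).trans (le_of_eq Finset.card_univ)
        · rw [← Finset.mul_prod_erase Finset.univ c (Finset.mem_univ i)]
          exact le_mul_of_one_le_left (Finset.prod_nonneg fun j _ => (hc0 j).le) (hc1 i)
    _ = (∏ i, c i) ^ (2 * Fintype.card ι) := by
        rw [Finset.prod_mul_distrib, Finset.prod_pow, Finset.prod_const, Finset.card_univ]
        ring

end Pool.Agent.Helper69K9.RP
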