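import Mathlib
import Pool.Agent.Helper69K9.RP.Gen2

/-!
# Consequences of the general inequality
-/

set_option autoImplicit false

open Polynomial

namespace Pool.Agent.Helper69K9.RP

theorem fin_card (S : Set ℝ) (B : ℝ)
    (h : ∀ F : Finset ℝ, (∀ x ∈ F, x ∈ S) → (F.card : ℝ) ≤ B) :
    S.Finite ∧ (S.ncard : ℝ) ≤ B := by
  have hfin : S.Finite := by
    by_contra hcon
    obtain ⟨F, hF, hc⟩ := Set.Infinite.exists_subset_card_eq hcon (⌊B⌋₊ + 1)
    have h1 := h F fun x hx => hF (by exact_mod_cast hx)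
    have h2 := Nat.lt_floor_add_one B
    rw [hc] at h1
    push_cast at h1
    linarith
  refine ⟨hfin, ?_⟩
  rw [Set.ncard_eq_toFinset_card S hfin]
  exact h _ fun x hx => (Set.Finite.mem_toFinset hfin).1 hx

theorem lehmer_le {τ : ℝ} (hτ : τ ^ 10 + τ ^ 9 - τ ^ 7 - τ ^ 6 - τ ^ 5 - τ ^ 4 - τ ^ 3 + τ + 1 = 0) :
    τ ≤ 11763 / 10000 := by
  by_contra hcon
  push Not at hcon
  obtain ⟨y, hy⟩ : ∃ y : ℝ, τ = y + 11763 / 10000 := ⟨τ - 11763 / 10000, by ring⟩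
  have hy0 : 0 ≤ y := by linarith
  rw [hy] at hτ
  ring_nf at hτ
  have h2 : ∀ j : ℕ, 0 ≤ y ^ j := fun j => pow_nonneg hy0 j
  nlinarith [h2 2, h2 3, h2 4, h2 5, h2 6, h2 7, h2 8, h2 9, h2 10]

theorem log_lehmer {τ : ℝ} (hτ1 : 1 < τ)
    (hτ : τ ^ 10 + τ ^ 9 - τ ^ 7 - τ ^ 6 - τ ^ 5 - τ ^ 4 - τ ^ 3 + τ + 1 = 0) :
    2 * Real.log τ ≤ 0.3248 := by
  have h1 := lehmer_le hτ
  have h2 : τ ≤ Real.exp 0.1624 := by
    have h3 := Real.sum_le_exp_of_nonneg (show (0 : ℝ) ≤ 0.1624 by norm_num) 5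
    norm_num [Finset.sum_range_succ, Nat.factorial] at h3
    norm_num
    linarith
  have h4 := Real.log_le_log (by linarith) h2
  rw [Real.log_exp] at h4
  linarith

theorem numA {T : ℝ} (hT2 : 2 * Real.log T ≤ 0.3248) {d : ℕ} (hd : 1 ≤ d) {n : ℕ} {G : ℝ}
    (hG : d * Real.log 2 ≤ G)
    (h : (n : ℝ) * (G - (2 * Real.log T + (3 / 50 : ℝ) / (2 - 3 / 50)) * d) ≤
      d * Real.log (d / (3 / 50)) + G) : (n : ℝ) ≤ 3 * Real.log d + 11 := by
  have hd1 : (1 : ℝ) ≤ d := by exact_mod_cast hd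
  have hd0 : (0 : ℝ) < d := by linarith
  have hlogd : 0 ≤ Real.log d := Real.log_nonneg hd1
  rcases Nat.eq_zero_or_pos n with h0 | h0
  · rw [h0]; push_cast; linarith
  have hN : (1 : ℝ) ≤ n := by exact_mod_cast h0
  have e1 : Real.log ((d : ℝ) / (3 / 50)) ≤ Real.log d + 2.8143 := by
    have h2 : (d : ℝ) / (3 / 50) = d * (2 ^ 4 * (25 / 24)) := by ring
    rw [h2, Real.log_mul hd0.ne' (by norm_num), Real.log_mul (by norm_num) (by norm_num),
      Real.log_pow]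
    have h3 := Real.log_two_lt_d9
    have h4 := Real.log_le_sub_one_of_pos (show (0 : ℝ) < 25 / 24 by norm_num)
    push_cast
    linarith
  have h2a := Real.log_two_gt_d9
  have h2b := Real.log_two_lt_d9
  have e2 : (3 / 50 : ℝ) / (2 - 3 / 50) ≤ 0.031 := by norm_num
  set N : ℝ := (n : ℝ) with hNdef
  have h3 : (N - 1) * G ≤ d * (Real.log d + 2.8143) + N * (0.3558 * d) := by
    have h4 : (2 * Real.log T + (3 / 50 : ℝ) / (2 - 3 / 50)) * d ≤ 0.3558 * d :=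
      mul_le_mul_of_nonneg_right (by linarith) hd0.le
    have h5 := mul_le_mul_of_nonneg_left h4 (show (0 : ℝ) ≤ N by linarith)
    have h6 := mul_le_mul_of_nonneg_left e1 hd0.le
    nlinarith
  have h4 : (N - 1) * (d * 0.693147) ≤ (N - 1) * G :=
    mul_le_mul_of_nonneg_left (by nlinarith) (by linarith)
  have h5 : d * ((N - 1) * 0.693147) ≤ d * (Real.log d + 2.8143 + N * 0.3558) := by
    nlinarith
  have h6 := le_of_mul_le_mul_left h5 hd0
  nlinarith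

theorem numB {T : ℝ} (hT2 : 2 * Real.log T ≤ 0.3248) {d : ℕ} (hd : 1 ≤ d) {n : ℕ} {G : ℝ}
    (hG : d * Real.log 2 ≤ 2 * G)
    (h : (n : ℝ) * (G - (2 * Real.log T + (1 / 100 : ℝ) / (2 - 1 / 100)) * d) ≤
      d * Real.log (d / (1 / 100)) + G) : (n : ℝ) ≤ 60 * Real.log d + 300 := by
  have hd1 : (1 : ℝ) ≤ d := by exact_mod_cast hd
  have hd0 : (0 : ℝ) < d := by linarith
  have hlogd : 0 ≤ Real.log d := Real.log_nonneg hd1
  rcases Nat.eq_zero_or_pos n with h0 | h0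
  · rw [h0]; push_cast; linarith
  have hN : (1 : ℝ) ≤ n := by exact_mod_cast h0
  have e1 : Real.log ((d : ℝ) / (1 / 100)) ≤ Real.log d + 4.6333 := by
    have h2 : (d : ℝ) / (1 / 100) = d * (2 ^ 7 * (25 / 32)) := by ring
    rw [h2, Real.log_mul hd0.ne' (by norm_num), Real.log_mul (by norm_num) (by norm_num),
      Real.log_pow]
    have h3 := Real.log_two_lt_d9
    have h4 := Real.log_le_sub_one_of_pos (show (0 : ℝ) < 25 / 32 by norm_num)
    push_cast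
    linarith
  have h2a := Real.log_two_gt_d9
  have h2b := Real.log_two_lt_d9
  have e2 : (1 / 100 : ℝ) / (2 - 1 / 100) ≤ 0.0051 := by norm_num
  set N : ℝ := (n : ℝ) with hNdef
  have h3 : (N - 1) * G ≤ d * (Real.log d + 4.6333) + N * (0.3299 * d) := by
    have h4 : (2 * Real.log T + (1 / 100 : ℝ) / (2 - 1 / 100)) * d ≤ 0.3299 * d :=
      mul_le_mul_of_nonneg_right (by linarith) hd0.le
    have h5 := mul_le_mul_of_nonneg_left h4 (show (0 : ℝ) ≤ N by linarith)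
    have h6 := mul_le_mul_of_nonneg_left e1 hd0.le
    nlinarith
  have h4 : (N - 1) * (d * 0.3465735) ≤ (N - 1) * G :=
    mul_le_mul_of_nonneg_left (by nlinarith) (by linarith)
  have h5 : d * ((N - 1) * 0.3465735) ≤ d * (Real.log d + 4.6333 + N * 0.3299) := by
    nlinarith
  have h6 := le_of_mul_le_mul_left h5 hd0
  nlinarith

theorem numC {T : ℝ} (hT2 : 2 * Real.log T ≤ 0.3248) {d : ℕ} (hd : 1 ≤ d) {G : ℝ}
    (hG : d * Real.log (8 * d) ≤ G)
    (h : (2 : ℝ) * (G - (2 * Real.log T + (1 / 2 : ℝ) / (2 - 1 / 2)) * d) ≤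
      d * Real.log (d / (1 / 2)) + G) : False := by
  have hd1 : (1 : ℝ) ≤ d := by exact_mod_cast hd
  have hd0 : (0 : ℝ) < d := by linarith
  have h3 : Real.log (8 * (d : ℝ)) = 3 * Real.log 2 + Real.log d := by
    rw [show (8 : ℝ) = 2 ^ 3 by norm_num, Real.log_mul (by norm_num) hd0.ne', Real.log_pow]
    push_cast
    ring
  rw [h3] at hG
  have e1 : Real.log ((d : ℝ) / (1 / 2)) = Real.log d + Real.log 2 := by
    rw [show (d : ℝ) / (1 / 2) = d * 2 by ring, Real.log_mul hd0.ne' (by norm_num)]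
  rw [e1] at h
  have h2a := Real.log_two_gt_d9
  have e2 : (1 / 2 : ℝ) / (2 - 1 / 2) = 1 / 3 := by norm_num
  rw [e2] at h
  have h3 : (2 * Real.log T + 1 / 3) * d ≤ 0.6582 * d :=
    mul_le_mul_of_nonneg_right (by norm_num at hT2 ⊢; linarith) hd0.le
  have h4 : d * (3 * Real.log 2 + Real.log d) ≤ d * (Real.log d + Real.log 2 + 1.3164) := by
    nlinarith
  have h5 := le_of_mul_le_mul_left h4 hd0
  norm_num at h5 h2a
  linarith

/-- closeness is automatic for `η = 1` -/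
theorem close_one {T : ℝ} {d : ℕ} (F : Finset ℝ) (hF : ∀ β ∈ F, β ∈ QQ T d) :
    ∀ β ∈ F, ∀ β' ∈ F, β ≠ β' → |β - β'| ≤ 1 * (β * β' - 1) := by
  intro β hβ β' hβ' _
  have h1 := (hF β hβ).1.1
  have h2 := (hF β' hβ').1.1
  rw [abs_le]
  constructor <;> nlinarith

/-- minimal polynomials divisible by `H` -/
theorem cong (PR : S_PR) (RS : S_RS) {T ε : ℝ} (hT : 1 < T)
    (hε0 : 0 < ε) (hε1 : ε < 1) {d : ℕ} (hd : 1 ≤ d) {p : ℕ} (hp : p.Prime) (H : (ZMod p)[X])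
    (F : Finset ℝ)
    (hF : ∀ β ∈ F, β ∈ QQ T d ∧ H ∣ (minpoly ℤ β).map (Int.castRingHom (ZMod p))) :
    (F.card : ℝ) * (H.natDegree * Real.log p - (2 * Real.log T + ε / (2 - ε)) * d) ≤
      d * Real.log (d / ε) + H.natDegree * Real.log p := by
  have h := gen2 PR RS hT hε0 hε1 hd F (fun β hβ => (hF β hβ).1) (fun _ => 0)
    (by simp; linarith) 0 le_rfl (fun β _ => by simp) {p} (fun _ => H.natDegree)
    (by simpa using hp) (by
      intro q hq
      rw [Finset.mem_singleton] at hq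
      subst hq
      exact ⟨H, rfl, fun β hβ => (hF β hβ).2⟩) 1 one_pos le_rfl
    (close_one F fun β hβ => (hF β hβ).1)
  simpa using h

/-- numbers close to each other -/
theorem near (PR : S_PR) (RS : S_RS) {T ε : ℝ} (hT : 1 < T)
    (hε0 : 0 < ε) (hε1 : ε < 1) {d : ℕ} (hd : 1 ≤ d) {x η : ℝ} (hx : 1 < x) (hη0 : 0 < η)
    (hη1 : η ≤ 1) (F : Finset ℝ)
    (hF : ∀ β ∈ F, β ∈ QQ T d ∧ x ≤ β ∧ β ≤ x + 2 * (x - 1) * η) :
    (F.card : ℝ) * (Real.log (1 / η) - (2 * Real.log T + ε / (2 - ε)) * d) ≤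
      d * Real.log (d / ε) + Real.log (1 / η) := by
  have h := gen2 PR RS hT hε0 hε1 hd F (fun β hβ => (hF β hβ).1) (fun _ => 0)
    (by simp; linarith) 0 le_rfl (fun β _ => by simp) ∅ (fun _ => 0) (by simp) (by simp)
    η hη0 hη1 (by
      intro β hβ β' hβ' _
      have h1 := (hF β hβ).2
      have h2 := (hF β' hβ').2
      have h3 : |β - β'| ≤ 2 * (x - 1) * η := by
        rw [abs_le]
        constructor <;> linarith
      refine h3.trans ?_
      have h4 : 2 * (x - 1) ≤ β * β' - 1 := by nlinarith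
      nlinarith)
  simpa using h

theorem corA (PR : S_PR) (RS : S_RS) {T : ℝ} (hT : 1 < T)
    (hT2 : 2 * Real.log T ≤ 0.3248) {d : ℕ} (hd : 1 ≤ d) {p : ℕ} (hp : p.Prime) (H : (ZMod p)[X])
    (hH : 2 ^ d ≤ p ^ H.natDegree) (F : Finset ℝ)
    (hF : ∀ β ∈ F, β ∈ QQ T d ∧ H ∣ (minpoly ℤ β).map (Int.castRingHom (ZMod p))) :
    (F.card : ℝ) ≤ 3 * Real.log d + 11 := by
  refine numA hT2 hd ?_ (cong PR RS hT (ε := 3 / 50) (by norm_num) (by norm_num) hd hp H F hF)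
  rw [← Real.log_pow, ← Real.log_pow]
  apply Real.log_le_log (by positivity)
  exact_mod_cast hH

theorem corB (PR : S_PR) (RS : S_RS) {T : ℝ} (hT : 1 < T)
    (hT2 : 2 * Real.log T ≤ 0.3248) {d : ℕ} (hd : 1 ≤ d) {p : ℕ} (hp : p.Prime) (H : (ZMod p)[X])
    (hH : 2 ^ d ≤ p ^ (2 * H.natDegree)) (F : Finset ℝ)
    (hF : ∀ β ∈ F, β ∈ QQ T d ∧ H ∣ (minpoly ℤ β).map (Int.castRingHom (ZMod p))) :
    (F.card : ℝ) ≤ 60 * Real.log d + 300 := by
  refine numB hT2 hd ?_ (cong PR RS hT (ε := 1 / 100) (by norm_num) (by norm_num) hd hp H F hF)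
  have h1 : d * Real.log 2 ≤ ((2 * H.natDegree : ℕ) : ℝ) * Real.log p := by
    rw [← Real.log_pow, ← Real.log_pow]
    apply Real.log_le_log (by positivity)
    exact_mod_cast hH
  push_cast at h1
  linarith

theorem corC (PR : S_PR) (RS : S_RS) {T : ℝ} (hT : 1 < T)
    (hT2 : 2 * Real.log T ≤ 0.3248) {d : ℕ} (hd : 1 ≤ d) {p : ℕ} (hp : p.Prime) (H : (ZMod p)[X])
    (hH : (8 * d) ^ d ≤ p ^ H.natDegree) {β β' : ℝ} (hβ : β ∈ QQ T d) (hβ' : β' ∈ QQ T d)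
    (h1 : H ∣ (minpoly ℤ β).map (Int.castRingHom (ZMod p)))
    (h2 : H ∣ (minpoly ℤ β').map (Int.castRingHom (ZMod p))) : β = β' := by
  classical
  by_contra hne
  have hd1 : (1 : ℝ) ≤ d := by exact_mod_cast hd
  have hcard : ({β, β'} : Finset ℝ).card = 2 := Finset.card_pair hne
  have h := cong PR RS hT (ε := 1 / 2) (by norm_num) (by norm_num) hd hp H {β, β'} (by
    intro x hx
    rw [Finset.mem_insert, Finset.mem_singleton] at hx
    rcases hx with rfl | rfl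
    · exact ⟨hβ, h1⟩
    · exact ⟨hβ', h2⟩)
  rw [hcard] at h
  push_cast at h
  refine numC hT2 hd ?_ h
  rw [← Real.log_pow, ← Real.log_pow]
  apply Real.log_le_log (by positivity)
  exact_mod_cast hH

theorem corA' (PR : S_PR) (RS : S_RS) {T : ℝ} (hT : 1 < T)
    (hT2 : 2 * Real.log T ≤ 0.3248) {d : ℕ} (hd : 1 ≤ d) {x η : ℝ} (hx : 1 < x) (hη0 : 0 < η)
    (hH : 2 ^ d * η ≤ 1) (F : Finset ℝ)
    (hF : ∀ β ∈ F, β ∈ QQ T d ∧ x ≤ β ∧ β ≤ x + 2 * (x - 1) * η) :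
    (F.card : ℝ) ≤ 3 * Real.log d + 11 := by
  have hη1 : η ≤ 1 := by
    have : (1 : ℝ) ≤ 2 ^ d := one_le_pow₀ (by norm_num)
    nlinarith
  refine numA hT2 hd ?_ (near PR RS hT (ε := 3 / 50) (by norm_num) (by norm_num) hd hx hη0 hη1 F hF)
  rw [← Real.log_pow]
  apply Real.log_le_log (by positivity)
  rw [le_div_iff₀ hη0]
  exact hH

theorem corB' (PR : S_PR) (RS : S_RS) {T : ℝ} (hT : 1 < T)
    (hT2 : 2 * Real.log T ≤ 0.3248) {d : ℕ} (hd : 1 ≤ d) {x η : ℝ} (hx : 1 < x) (hη0 : 0 < η)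
    (hH : 2 ^ d * η ^ 2 ≤ 1) (F : Finset ℝ)
    (hF : ∀ β ∈ F, β ∈ QQ T d ∧ x ≤ β ∧ β ≤ x + 2 * (x - 1) * η) :
    (F.card : ℝ) ≤ 60 * Real.log d + 300 := by
  have hη1 : η ≤ 1 := by
    have : (1 : ℝ) ≤ 2 ^ d := one_le_pow₀ (by norm_num)
    by_contra hcon
    push Not at hcon
    have : 1 < η ^ 2 := by nlinarith
    nlinarith
  refine numB hT2 hd ?_
    (near PR RS hT (ε := 1 / 100) (by norm_num) (by norm_num) hd hx hη0 hη1 F hF)
  have h1 : Real.log ((2 : ℝ) ^ d) ≤ Real.log ((1 / η) ^ 2) := by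
    apply Real.log_le_log (by positivity)
    rw [div_pow, one_pow, le_div_iff₀ (by positivity)]
    exact hH
  rw [Real.log_pow, Real.log_pow] at h1
  push_cast at h1
  exact h1

theorem corC' (PR : S_PR) (RS : S_RS) {T : ℝ} (hT : 1 < T)
    (hT2 : 2 * Real.log T ≤ 0.3248) {d : ℕ} (hd : 1 ≤ d) {x η : ℝ} (hx : 1 < x) (hη0 : 0 < η)
    (hH : (8 * (d : ℝ)) ^ d * η ≤ 1) {β β' : ℝ} (hβ : β ∈ QQ T d) (hβ' : β' ∈ QQ T d)
    (h1 : x ≤ β ∧ β ≤ x + 2 * (x - 1) * η) (h2 : x ≤ β' ∧ β' ≤ x + 2 * (x - 1) * η) :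
    β = β' := by
  classical
  by_contra hne
  have hd1 : (1 : ℝ) ≤ d := by exact_mod_cast hd
  have hη1 : η ≤ 1 := by
    have : (1 : ℝ) ≤ (8 * (d : ℝ)) ^ d := one_le_pow₀ (by linarith)
    nlinarith
  have hcard : ({β, β'} : Finset ℝ).card = 2 := Finset.card_pair hne
  have h := near PR RS hT (ε := 1 / 2) (by norm_num) (by norm_num) hd hx hη0 hη1 {β, β'} (by
    intro x hx
    rw [Finset.mem_insert, Finset.mem_singleton] at hx
    rcases hx with rfl | rfl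
    · exact ⟨hβ, h1⟩
    · exact ⟨hβ', h2⟩)
  rw [hcard] at h
  push_cast at h
  refine numC hT2 hd ?_ h
  rw [← Real.log_pow]
  apply Real.log_le_log (by positivity)
  rw [le_div_iff₀ hη0]
  exact hH

theorem corD (PR : S_PR) (RS : S_RS) {T : ℝ} (hT : 1 < T)
    (hT2 : 2 * Real.log T ≤ 0.3248) {d : ℕ} (hd : 1 ≤ d) (b : ℕ → ℝ)
    (hb : ∑ k ∈ Finset.Icc 1 d, (k : ℝ) * b k ^ 2 ≤ 1) (F : Finset ℝ)
    (hF : ∀ β ∈ F, β ∈ QQ T d ∧ Real.sqrt d ≤ ∑ k ∈ Finset.Icc 1 d, b k * W β k) :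
    (F.card : ℝ) ≤ 2 * Real.log d + 4.5 := by
  have hd1 : (1 : ℝ) ≤ d := by exact_mod_cast hd
  have hd0 : (0 : ℝ) < d := by linarith
  have hlogd : 0 ≤ Real.log d := Real.log_nonneg hd1
  set s : ℝ := Real.sqrt (9 / 10) with hs
  have hs0 : 0 ≤ s := Real.sqrt_nonneg _
  have hs2 : s ^ 2 = 9 / 10 := Real.sq_sqrt (by norm_num)
  have h := gen2 PR RS hT (ε := 1 / 10) (by norm_num) (by norm_num) hd F
    (fun β hβ => (hF β hβ).1) (fun k => s * b k)
    (by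
      have h1 : ∑ k ∈ Finset.Icc 1 d, (k : ℝ) * (s * b k) ^ 2 =
          9 / 10 * ∑ k ∈ Finset.Icc 1 d, (k : ℝ) * b k ^ 2 := by
        rw [Finset.mul_sum]
        refine Finset.sum_congr rfl fun k _ => ?_
        rw [mul_pow, hs2]; ring
      rw [h1]; linarith)
    (s * Real.sqrt d) (by positivity) (fun β hβ => by
      have h1 : ∑ k ∈ Finset.Icc 1 d, s * b k * W β k =
          s * ∑ k ∈ Finset.Icc 1 d, b k * W β k := by
        rw [Finset.mul_sum]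
        refine Finset.sum_congr rfl fun k _ => by ring
      rw [h1]
      exact mul_le_mul_of_nonneg_left (hF β hβ).2 hs0) ∅ (fun _ => 0) (by simp) (by simp)
    1 one_pos le_rfl (close_one F fun β hβ => (hF β hβ).1)
  rw [mul_pow, hs2, Real.sq_sqrt hd0.le] at h
  simp only [Finset.sum_empty, add_zero, div_one, Real.log_one] at h
  have e1 : Real.log ((d : ℝ) / (1 / 10)) ≤ Real.log d + 2.3295 := by
    have h2 : (d : ℝ) / (1 / 10) = d * (2 ^ 3 * (5 / 4)) := by ring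
    rw [h2, Real.log_mul hd0.ne' (by norm_num), Real.log_mul (by norm_num) (by norm_num),
      Real.log_pow]
    have h3 := Real.log_two_lt_d9
    have h4 := Real.log_le_sub_one_of_pos (show (0 : ℝ) < 5 / 4 by norm_num)
    push_cast
    linarith
  have e2 : (1 / 10 : ℝ) / (2 - 1 / 10) ≤ 0.0527 := by norm_num
  set N : ℝ := (F.card : ℝ) with hNdef
  have hN : 0 ≤ N := by positivity
  have h3 : d * (N * 0.5225) ≤ d * (Real.log d + 2.3295) := by
    have h4 : (2 * Real.log T + (1 / 10 : ℝ) / (2 - 1 / 10)) * d ≤ 0.3775 * d :=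
      mul_le_mul_of_nonneg_right (by linarith) hd0.le
    have h5 := mul_le_mul_of_nonneg_left h4 hN
    have h6 := mul_le_mul_of_nonneg_left e1 hd0.le
    nlinarith
  have h6 := le_of_mul_le_mul_left h3 hd0
  nlinarith

theorem corE (PR : S_PR) (RS : S_RS) {T : ℝ} (hT : 1 < T)
    (hT2 : 2 * Real.log T ≤ 0.3248) {d : ℕ} (hd : 1 ≤ d) (b : ℕ → ℝ)
    (hb : ∑ k ∈ Finset.Icc 1 d, (k : ℝ) * b k ^ 2 ≤ 1) (F : Finset ℝ)
    (hF : ∀ β ∈ F, β ∈ QQ T d ∧ Real.sqrt d ≤ |∑ k ∈ Finset.Icc 1 d, b k * W β k|) :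
    (F.card : ℝ) ≤ 4 * Real.log d + 9 := by
  classical
  set A := F.filter fun β => Real.sqrt d ≤ ∑ k ∈ Finset.Icc 1 d, b k * W β k with hA
  set B := F.filter fun β => Real.sqrt d ≤ ∑ k ∈ Finset.Icc 1 d, (-b k) * W β k with hB
  have h1 := corD PR RS hT hT2 hd b hb A (fun β hβ => by
    rw [hA, Finset.mem_filter] at hβ
    exact ⟨(hF β hβ.1).1, hβ.2⟩)
  have h2 := corD PR RS hT hT2 hd (fun k => -b k) (by simpa using hb) B (fun β hβ => by
    rw [hB, Finset.mem_filter] at hβ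
    exact ⟨(hF β hβ.1).1, hβ.2⟩)
  have h3 : F ⊆ A ∪ B := by
    intro β hβ
    rw [Finset.mem_union, hA, hB, Finset.mem_filter, Finset.mem_filter]
    have h4 := (hF β hβ).2
    rcases le_abs.1 h4 with h5 | h5
    · exact Or.inl ⟨hβ, h5⟩
    · refine Or.inr ⟨hβ, ?_⟩
      simpa [neg_mul, Finset.sum_neg_distrib] using h5
  have h4 : (F.card : ℝ) ≤ A.card + B.card := by
    exact_mod_cast (Finset.card_le_card h3).trans (Finset.card_union_le _ _)
  linarith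

end Pool.Agent.Helper69K9.RP
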