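import Pool.Agent.Helper69K9.RP.Stm

/-! Leaf PR (helper27): splitting the product over a disjoint union. -/

set_option autoImplicit false

open Polynomial

namespace Pool.Agent.Helper69K9.RP

theorem pr : S_PR := by
  intro κ _ _ n a G h1 h2
  have key : ∏ x : (Σ b, Fin (n b)), ∏ y ∈ Finset.univ.erase x, ‖a x.1 x.2 - a y.1 y.2‖ =
      (∏ b, ∏ i, ∏ j ∈ Finset.univ.erase i, ‖a b i - a b j‖) *
        ∏ b, ∏ b' ∈ Finset.univ.erase b, ∏ i, ∏ j, ‖a b i - a b' j‖ := by
    rw [Fintype.prod_sigma, ← Finset.prod_mul_distrib]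
    refine Finset.prod_congr rfl fun b _ => ?_
    rw [Finset.prod_comm (s := Finset.univ.erase b), ← Finset.prod_mul_distrib]
    refine Finset.prod_congr rfl fun i _ => ?_
    set g : (Σ b, Fin (n b)) → ℝ := fun y => if y = ⟨b, i⟩ then 1 else ‖a b i - a y.1 y.2‖ with hg
    have e1 : ∏ y ∈ Finset.univ.erase (⟨b, i⟩ : Σ b, Fin (n b)), ‖a b i - a y.1 y.2‖ =
        ∏ y, g y := by
      rw [← Finset.prod_erase (Finset.univ) (a := (⟨b, i⟩ : Σ b, Fin (n b))) (f := g) (by simp [hg])]
      refine Finset.prod_congr rfl fun y hy => ?_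
      rw [hg]
      simp only
      rw [if_neg (Finset.ne_of_mem_erase hy)]
    refine e1.trans ?_
    rw [Fintype.prod_sigma, ← Finset.mul_prod_erase Finset.univ _ (Finset.mem_univ b)]
    congr 1
    · rw [← Finset.mul_prod_erase Finset.univ _ (Finset.mem_univ i)]
      have : g ⟨b, i⟩ = 1 := by simp [hg]
      rw [this, one_mul]
      refine Finset.prod_congr rfl fun j hj => ?_
      rw [hg]
      simp only
      rw [if_neg]
      intro h
      apply Finset.ne_of_mem_erase hj
      simpa using h
    · refine Finset.prod_congr rfl fun b' hb' => Finset.prod_congr rfl fun j _ => ?_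
      rw [hg]
      simp only
      rw [if_neg]
      intro h
      apply Finset.ne_of_mem_erase hb'
      exact congrArg Sigma.fst h
  rw [key]
  have k1 : 1 ≤ ∏ b, ∏ i, ∏ j ∈ Finset.univ.erase i, ‖a b i - a b j‖ := by
    calc (1 : ℝ) = ∏ _b : κ, (1 : ℝ) := by simp
      _ ≤ _ := Finset.prod_le_prod (fun _ _ => zero_le_one) fun b _ => h1 b
  have k2 : Real.exp (G * (Fintype.card κ * (Fintype.card κ - 1))) ≤
      ∏ b, ∏ b' ∈ Finset.univ.erase b, ∏ i, ∏ j, ‖a b i - a b' j‖ := by
    calc Real.exp (G * (Fintype.card κ * (Fintype.card κ - 1)))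
        = ∏ b : κ, ∏ _b' ∈ Finset.univ.erase b, Real.exp G := by
          have hcard : ∀ b : κ, (Finset.univ.erase b).card = Fintype.card κ - 1 := by
            intro b
            rw [Finset.card_erase_of_mem (Finset.mem_univ _), Finset.card_univ]
          simp_rw [Finset.prod_const, hcard]
          rw [Finset.prod_const, Finset.card_univ, ← pow_mul, ← Real.exp_nat_mul]
          congr 1
          rcases Nat.eq_zero_or_pos (Fintype.card κ) with h0 | h0
          · rw [h0]; simp
          · rw [Nat.cast_mul, Nat.cast_sub h0]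
            push_cast
            ring
      _ ≤ _ := by
          refine Finset.prod_le_prod (fun b _ => Finset.prod_nonneg fun b' _ => (Real.exp_pos G).le)
            fun b _ => ?_
          refine Finset.prod_le_prod (fun b' _ => (Real.exp_pos G).le) fun b' hb' => ?_
          exact h2 b b' (Finset.ne_of_mem_erase hb').symm
  calc Real.exp (G * (Fintype.card κ * (Fintype.card κ - 1))) = 1 * _ := (one_mul _).symm
    _ ≤ _ := mul_le_mul k1 k2 (Real.exp_pos _).le (zero_le_one.trans k1)

end Pool.Agent.Helper69K9.RP
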