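import Pool.Agent.Helper69K9.RP.Stm

/-! Leaf RF (helper27): replacing the zeros outside the disc by their inverses. -/

set_option autoImplicit false

open Polynomial

namespace Pool.Agent.Helper69K9.RP

namespace RfL

lemma sub_le_one_sub {z w : ℂ} (hz : ‖z‖ ≤ 1) (hw : ‖w‖ ≤ 1) :
    ‖z - w‖ ≤ ‖1 - z * (starRingEnd ℂ) w‖ := by
  have h1 : ‖z - w‖ ^ 2 ≤ ‖1 - z * (starRingEnd ℂ) w‖ ^ 2 := by
    rw [← Complex.normSq_eq_norm_sq, ← Complex.normSq_eq_norm_sq, Complex.normSq_sub,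
      Complex.normSq_sub]
    simp only [map_one, one_mul, map_mul, Complex.conj_conj, Complex.normSq_conj]
    have h2 : ((starRingEnd ℂ) z * w).re = (z * (starRingEnd ℂ) w).re := by
      simp [Complex.mul_re]
    rw [h2]
    have h3 : Complex.normSq z ≤ 1 := by
      rw [Complex.normSq_eq_norm_sq]; nlinarith [norm_nonneg z]
    have h4 : Complex.normSq w ≤ 1 := by
      rw [Complex.normSq_eq_norm_sq]; nlinarith [norm_nonneg w]
    nlinarith [mul_nonneg (sub_nonneg.2 h3) (sub_nonneg.2 h4)]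
  exact (sq_le_sq₀ (norm_nonneg _) (norm_nonneg _)).1 h1

lemma one_out {c : ℝ} (hc : 0 < c) (z : ℂ) :
    ‖(c : ℂ) - z‖ = c * ‖1 - ((c⁻¹ : ℝ) : ℂ) * z‖ := by
  have hβc : (c : ℂ) ≠ 0 := by exact_mod_cast hc.ne'
  have h2 : (c : ℂ) - z = (c : ℂ) * (1 - ((c⁻¹ : ℝ) : ℂ) * z) := by
    push_cast
    rw [mul_sub, mul_one, ← mul_assoc, mul_inv_cancel₀ hβc, one_mul]
  conv_lhs => rw [h2, norm_mul, Complex.norm_real, Real.norm_of_nonneg hc.le]

lemma conj_one (x : ℝ) (z : ℂ) :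
    ‖1 - (x : ℂ) * (starRingEnd ℂ) z‖ = ‖1 - (x : ℂ) * z‖ := by
  rw [← Complex.norm_conj]
  simp

end RfL

open RfL in
theorem rf : S_RF := by
  intro ι _ _ a w c h
  have hc1 : ∀ i, 1 ≤ c i := by
    intro i
    rcases h i with h | h
    · exact h.1.ge
    · exact h.1.le
  have hc0 : ∀ i, 0 < c i := fun i => one_pos.trans_le (hc1 i)
  have hfac : ∀ i j, ‖a i - a j‖ ≤ (c i * c j) * ‖1 - w i * (starRingEnd ℂ) (w j)‖ := by
    intro i j
    rcases h i with ⟨hi1, hi2, hi3⟩ | ⟨hi1, hi2, hi3⟩ <;> rcases h j with ⟨hj1, hj2, hj3⟩ | ⟨hj1, hj2, hj3⟩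
    · rw [hi1, hj1, hi3, hj3, one_mul, one_mul]
      exact sub_le_one_sub hi2 hj2
    · rw [hi1, hi3, hj2, hj3, one_mul, Complex.conj_ofReal, norm_sub_rev, one_out (hc0 j), mul_comm (a i)]
    · rw [hj1, hj3, hi2, hi3, mul_one, conj_one, one_out (hc0 i)]
    · rw [hi2, hi3, hj2, hj3, Complex.conj_ofReal]
      have e1 : ((c i : ℂ) - (c j : ℂ)) = ((c i - c j : ℝ) : ℂ) := by push_cast; ring
      have e2 : (1 - (((c i)⁻¹ : ℝ) : ℂ) * (((c j)⁻¹ : ℝ) : ℂ)) = ((1 - (c i)⁻¹ * (c j)⁻¹ : ℝ) : ℂ) := by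
        push_cast; ring
      rw [e1, e2, Complex.norm_real, Complex.norm_real, Real.norm_eq_abs, Real.norm_eq_abs]
      have hi0 := hc0 i
      have hj0 := hc0 j
      have e3 : (c i * c j) * |1 - (c i)⁻¹ * (c j)⁻¹| = |c i * c j - 1| := by
        rw [← abs_of_pos (mul_pos hi0 hj0), ← abs_mul, abs_of_pos (mul_pos hi0 hj0)]
        congr 1
        field_simp
      rw [e3]
      have h1 : 0 ≤ (c i - 1) * (c j - 1) := mul_nonneg (by linarith) (by linarith)
      have h2 : 1 ≤ c i * c j := by nlinarith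
      rw [abs_of_nonneg (by linarith : 0 ≤ c i * c j - 1), abs_le]
      constructor <;> nlinarith
  have h1 : ∏ i, ∏ j ∈ Finset.univ.erase i, ‖a i - a j‖ ≤
      ∏ i, ∏ j ∈ Finset.univ.erase i, ((c i * c j) * ‖1 - w i * (starRingEnd ℂ) (w j)‖) := by
    refine Finset.prod_le_prod (fun i _ => Finset.prod_nonneg fun j _ => norm_nonneg _)
      fun i _ => ?_
    refine Finset.prod_le_prod (fun j _ => norm_nonneg _) fun j _ => hfac i j
  refine h1.trans ?_
  simp_rw [Finset.prod_mul_distrib]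
  rw [← Finset.prod_mul_distrib]
  refine mul_le_mul_of_nonneg_right ?_ (Finset.prod_nonneg fun i _ =>
    Finset.prod_nonneg fun j _ => norm_nonneg _)
  have hC1 : 1 ≤ ∏ i, c i := by
    calc (1 : ℝ) = ∏ _i : ι, (1 : ℝ) := by simp
      _ ≤ ∏ i, c i := Finset.prod_le_prod (fun _ _ => zero_le_one) fun i _ => hc1 i
  calc ∏ i, ((∏ j ∈ Finset.univ.erase i, c i) * ∏ j ∈ Finset.univ.erase i, c j)
      ≤ ∏ i, (c i ^ Fintype.card ι * ∏ j, c j) := by
        refine Finset.prod_le_prod (fun i _ => mul_nonneg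
          (Finset.prod_nonneg fun j _ => (hc0 i).le) (Finset.prod_nonneg fun j _ => (hc0 j).le))
          fun i _ => ?_
        apply mul_le_mul _ _ (Finset.prod_nonneg fun j _ => (hc0 j).le) (pow_nonneg (hc0 i).le _)
        · rw [Finset.prod_const]
          apply pow_le_pow_right₀ (hc1 i)
          exact (Finset.card_le_card (Finset.erase_subset _ _)).trans (le_of_eq Finset.card_univ)
        · rw [← Finset.mul_prod_erase Finset.univ c (Finset.mem_univ i)]
          exact le_mul_of_one_le_left (Finset.prod_nonneg fun j _ => (hc0 j).le) (hc1 i)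
    _ = (∏ i, c i) ^ (2 * Fintype.card ι) := by
        rw [Finset.prod_mul_distrib, Finset.prod_pow, Finset.prod_const, Finset.card_univ]
        ring

end Pool.Agent.Helper69K9.RP
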