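import Pool.Agent.Helper69K9.RP.Stm
import Pool.Agent.H252R3.Leh.Res

/-! Leaf RS (helper27): the resultant of two polynomials with common factors modulo some primes. -/

set_option autoImplicit false

open Polynomial

namespace Pool.Agent.Helper69K9.RP

open Pool.Agent.H252R3.Leh in
theorem rs : S_RS := by
  intro f g m n a b P δ hf hg hfi hgi hfg hfa hgb hP hδ
  have hR : R f g ≠ 0 := by
    apply R_ne_zero f g hf hfi hg.ne_zero
    intro hd
    exact hfg (eq_of_monic_of_associated hf hg (hfi.associated_of_dvd hgi hd))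
  have hdvd : (∏ p ∈ P, (p : ℤ) ^ δ p) ∣ R f g := by
    apply Finset.prod_dvd_of_coprime
    · intro p hp q hq hpq
      have hc : Nat.Coprime p q := (Nat.coprime_primes (hP p hp) (hP q hq)).2 hpq
      exact (Nat.isCoprime_iff_coprime.2 hc).pow
    · intro p hp
      obtain ⟨H, hH, h1, h2⟩ := hδ p hp
      have : Fact p.Prime := ⟨hP p hp⟩
      rw [← hH]
      exact pow_dvd_R p f g hf H h1 h2
  have h5 := Int.le_of_dvd (abs_pos.mpr hR) ((dvd_abs _ _).mpr hdvd)
  have h6 : (∏ p ∈ P, (p : ℝ) ^ δ p) ≤ |(R f g : ℝ)| := by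
    exact_mod_cast h5
  refine h6.trans (le_of_eq ?_)
  rw [← Complex.norm_intCast, R_cast f g hf]
  have hroots : (cx f).roots = Finset.univ.val.map a := by
    show (f.map (Int.castRingHom ℂ)).roots = _
    rw [hfa]
    have : ∏ i, (X - C (a i)) = ((Finset.univ.val.map a).map fun z => X - C z).prod := by
      rw [Multiset.map_map]
      rfl
    rw [this, roots_multiset_prod_X_sub_C]
  rw [hroots, Multiset.map_map]
  have e : (Multiset.map ((fun z => eval z (cx g)) ∘ a) Finset.univ.val).prod =
      ∏ i, ∏ j, (a i - b j) := by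
    show ∏ i, eval (a i) (cx g) = _
    refine Finset.prod_congr rfl fun i _ => ?_
    show eval (a i) (g.map (Int.castRingHom ℂ)) = _
    rw [hgb, eval_prod]
    simp
  rw [e, norm_prod]
  exact Finset.prod_congr rfl fun i _ => norm_prod _ _

end Pool.Agent.Helper69K9.RP
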