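import Mathlib

/-!
# Repulsion of the Perron numbers with infinitely many Parry powers: statements of the steps
-/

set_option autoImplicit false

open Polynomial

namespace Pool.Agent.Helper69K9.RP

/-- the energy bound (general form of `Helper69K9/SN/En.lean`) -/
def S_EG : Prop :=
  ∀ (ι : Type) [Fintype ι] [DecidableEq ι] (w : ι → ℂ) (r L : ℝ), (∀ i, ‖w i‖ ≤ 1) →
    0 ≤ r → r < 1 →
    Real.exp L ≤ ∏ i, ∏ j ∈ Finset.univ.erase i, ‖1 - w i * (starRingEnd ℂ) (w j)‖ →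
    ∀ m : ℕ, ∑ k ∈ Finset.Icc 1 m, r ^ k * (‖∑ i, w i ^ k‖ ^ 2 / (k : ℝ)) ≤
      Fintype.card ι * Real.log (1 / (1 - r)) + (Fintype.card ι : ℝ) ^ 2 * (1 - r) - L

/-- replacing all zeros outside the disc by their inverses. Proof: for `i ≠ j`
`‖a i - a j‖ ≤ c i * c j * ‖1 - w i * conj (w j)‖` (see `sub_le_one_sub` and `refl'` in
`Helper69K9/SN/Small.lean`; two outer points `c, c'`: `|c - c'| = c c' |1/c - 1/c'|`), and
`∏_i ∏_{j ≠ i} c i * c j = (∏ c) ^ (2 (n - 1))`. -/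
def S_RF : Prop :=
  ∀ (ι : Type) [Fintype ι] [DecidableEq ι] (a w : ι → ℂ) (c : ι → ℝ),
    (∀ i, (c i = 1 ∧ ‖a i‖ ≤ 1 ∧ w i = a i) ∨
      (1 < c i ∧ a i = (c i : ℂ) ∧ w i = (((c i)⁻¹ : ℝ) : ℂ))) →
    ∏ i, ∏ j ∈ Finset.univ.erase i, ‖a i - a j‖ ≤ (∏ i, c i) ^ (2 * Fintype.card ι) *
      ∏ i, ∏ j ∈ Finset.univ.erase i, ‖1 - w i * (starRingEnd ℂ) (w j)‖

/-- splitting the product over a disjoint union of families -/
def S_PR : Prop :=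
  ∀ (κ : Type) [Fintype κ] [DecidableEq κ] (n : κ → ℕ) (a : (b : κ) → Fin (n b) → ℂ) (G : ℝ),
    (∀ b, 1 ≤ ∏ i, ∏ j ∈ Finset.univ.erase i, ‖a b i - a b j‖) →
    (∀ b b', b ≠ b' → Real.exp G ≤ ∏ i, ∏ j, ‖a b i - a b' j‖) →
    Real.exp (G * (Fintype.card κ * (Fintype.card κ - 1))) ≤
      ∏ x : (Σ b, Fin (n b)), ∏ y ∈ Finset.univ.erase x, ‖a x.1 x.2 - a y.1 y.2‖

/-- the resultant of two polynomials with common factors modulo some primes.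
Use `R`, `R_cast`, `pow_dvd_R` in `Pool/Agent/H252R3/Leh/Res.lean`. -/
def S_RS : Prop :=
  ∀ (f g : ℤ[X]) (m n : ℕ) (a : Fin m → ℂ) (b : Fin n → ℂ) (P : Finset ℕ) (δ : ℕ → ℕ),
    f.Monic → g.Monic → Irreducible f → Irreducible g → f ≠ g →
    f.map (Int.castRingHom ℂ) = ∏ i, (X - C (a i)) →
    g.map (Int.castRingHom ℂ) = ∏ j, (X - C (b j)) →
    (∀ p ∈ P, p.Prime) →
    (∀ p ∈ P, ∃ H : (ZMod p)[X], H.natDegree = δ p ∧ H ∣ f.map (Int.castRingHom (ZMod p)) ∧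
      H ∣ g.map (Int.castRingHom (ZMod p))) →
    ∏ p ∈ P, (p : ℝ) ^ δ p ≤ ∏ i, ∏ j, ‖a i - b j‖

end Pool.Agent.Helper69K9.RP
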